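import Mathlib

open MeasureTheory Filter Topology Set
open scoped ENNReal Pointwise

namespace Pool.Agent.Results.MP_a80f1a_gt.UnionSurfaceFails

/-- The difference quotient `(λ(A ⊕ δK) - λ(A)) / δ`. -/
noncomputable def surfQuot {d : ℕ} (K A : Set (Fin d → ℝ)) (δ : ℝ) : ℝ≥0∞ :=
  (volume (A + δ • K) - volume A) / ENNReal.ofReal δ

/-- The lower `K`-surface area of `A`. -/
noncomputable def lowerSurf {d : ℕ} (K A : Set (Fin d → ℝ)) : ℝ≥0∞ :=
  liminf (surfQuot K A) (𝓝[>] 0)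

/-- The upper `K`-surface area of `A`. -/
noncomputable def upperSurf {d : ℕ} (K A : Set (Fin d → ℝ)) : ℝ≥0∞ :=
  limsup (surfQuot K A) (𝓝[>] 0)

/-- The octahedron. -/
def oct : Set (Fin 3 → ℝ) := {x | ∑ i, |x i| ≤ 1}

/-- The centres: the origin and the six vertices of the octahedron. -/
def ctr : Set (Fin 3 → ℝ) := {x | x = 0 ∨ ∃ i, x = Pi.single i 1 ∨ x = Pi.single i (-1)}

lemma ctr_finite : ctr.Finite := by
  have h : ctr ⊆ {0} ∪ (range (fun i : Fin 3 => (Pi.single i 1 : Fin 3 → ℝ)) ∪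
      range (fun i : Fin 3 => (Pi.single i (-1) : Fin 3 → ℝ))) := by
    rintro x (rfl | ⟨i, rfl | rfl⟩)
    · simp
    · exact Or.inr (Or.inl ⟨i, rfl⟩)
    · exact Or.inr (Or.inr ⟨i, rfl⟩)
  exact ((finite_singleton _).union ((finite_range _).union (finite_range _))).subset h

lemma zero_mem_ctr : (0 : Fin 3 → ℝ) ∈ ctr := Or.inl rfl

lemma ctr_subset : ctr ⊆ oct := by
  rintro x (rfl | ⟨i, rfl | rfl⟩)
  · simp [oct]
  · have : ∑ j, |(Pi.single i 1 : Fin 3 → ℝ) j| = 1 := by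
      rw [Finset.sum_eq_single i]
      · simp
      · intro j _ hj
        simp [Pi.single_eq_of_ne hj]
      · simp
    exact this.le
  · have : ∑ j, |(Pi.single i (-1) : Fin 3 → ℝ) j| = 1 := by
      rw [Finset.sum_eq_single i]
      · simp
      · intro j _ hj
        simp [Pi.single_eq_of_ne hj]
      · simp
    exact this.le

lemma oct_neg {x : Fin 3 → ℝ} (hx : x ∈ oct) : -x ∈ oct := by
  simpa [oct] using hx

lemma convex_sum_abs {n : ℕ} (r : ℝ) : Convex ℝ {x : Fin n → ℝ | ∑ i, |x i| ≤ r} := by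
  intro x hx y hy a b ha hb hab
  have hx' : ∑ i, |x i| ≤ r := hx
  have hy' : ∑ i, |y i| ≤ r := hy
  show ∑ i, |(a • x + b • y) i| ≤ r
  calc ∑ i, |(a • x + b • y) i| ≤ ∑ i, (a * |x i| + b * |y i|) := by
        refine Finset.sum_le_sum fun i _ => ?_
        refine (abs_add_le _ _).trans ?_
        simp [abs_mul, abs_of_nonneg ha, abs_of_nonneg hb]
    _ = a * ∑ i, |x i| + b * ∑ i, |y i| := by
        rw [Finset.sum_add_distrib, Finset.mul_sum, Finset.mul_sum]
    _ ≤ a * r + b * r := add_le_add (mul_le_mul_of_nonneg_left hx' ha)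
        (mul_le_mul_of_nonneg_left hy' hb)
    _ = r := by rw [← add_mul, hab, one_mul]

lemma convex_oct : Convex ℝ oct := convex_sum_abs 1

lemma smul_oct {r : ℝ} (hr : 0 < r) : r • oct = {x | ∑ i, |x i| ≤ r} := by
  ext x
  rw [mem_smul_set_iff_inv_smul_mem₀ hr.ne']
  have : ∑ i, |(r⁻¹ • x) i| = r⁻¹ * ∑ i, |x i| := by
    rw [Finset.mul_sum]
    refine Finset.sum_congr rfl fun i _ => ?_
    simp [abs_mul, abs_of_pos hr]
  show ∑ i, |(r⁻¹ • x) i| ≤ 1 ↔ ∑ i, |x i| ≤ r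
  rw [this, inv_mul_le_iff₀ hr, mul_one]

lemma bounded_oct : Bornology.IsBounded oct := by
  refine (Metric.isBounded_closedBall (x := (0 : Fin 3 → ℝ)) (r := 1)).subset fun x hx => ?_
  have hx' : ∑ i, |x i| ≤ 1 := hx
  rw [mem_closedBall_zero_iff, pi_norm_le_iff_of_nonneg zero_le_one]
  intro i
  exact (Finset.single_le_sum (f := fun i => |x i|) (fun i _ => abs_nonneg _)
    (Finset.mem_univ i)).trans hx'

/-- Volume of the cross-polytopes. -/
lemma volume_le_three {r : ℝ} : volume {x : Fin 3 → ℝ | ∑ i, |x i| ≤ r}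
    = ENNReal.ofReal r ^ 3 * ENNReal.ofReal (4 / 3) := by
  have h := volume_sum_rpow_le (Fin 3) (p := 1) le_rfl r
  simp only [Real.rpow_one, div_one, Fintype.card_fin] at h
  rw [h]
  congr 2
  have h1 : Real.Gamma (1 + 1) = 1 := by
    rw [Real.Gamma_add_one one_ne_zero, Real.Gamma_one, mul_one]
  have h2 : Real.Gamma (((3 : ℕ) : ℝ) + 1) = 6 := by
    rw [Real.Gamma_nat_eq_factorial]
    norm_num [Nat.factorial]
  rw [h1, h2]
  norm_num

lemma volume_le_two {r : ℝ} : volume {x : Fin 2 → ℝ | ∑ i, |x i| ≤ r}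
    = ENNReal.ofReal r ^ 2 * ENNReal.ofReal 2 := by
  have h := volume_sum_rpow_le (Fin 2) (p := 1) le_rfl r
  simp only [Real.rpow_one, div_one, Fintype.card_fin] at h
  rw [h]
  congr 2
  have h1 : Real.Gamma (1 + 1) = 1 := by
    rw [Real.Gamma_add_one one_ne_zero, Real.Gamma_one, mul_one]
  have h2 : Real.Gamma (((2 : ℕ) : ℝ) + 1) = 2 := by
    rw [Real.Gamma_nat_eq_factorial]
    norm_num [Nat.factorial]
  rw [h1, h2]
  norm_num

lemma volume_lt_two : volume {x : Fin 2 → ℝ | ∑ i, |x i| < 1} = ENNReal.ofReal 2 := by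
  have h := volume_sum_rpow_lt_one (Fin 2) (p := 1) le_rfl
  simp only [Real.rpow_one, div_one, Fintype.card_fin] at h
  rw [h]
  congr 1
  have h1 : Real.Gamma (1 + 1) = 1 := by
    rw [Real.Gamma_add_one one_ne_zero, Real.Gamma_one, mul_one]
  have h2 : Real.Gamma (((2 : ℕ) : ℝ) + 1) = 2 := by
    rw [Real.Gamma_nat_eq_factorial]
    norm_num [Nat.factorial]
  rw [h1, h2]
  norm_num

/-! ### The double octahedron -/

lemma surfQuot_double {δ : ℝ} (hδ : 0 < δ) :
    surfQuot oct ((2 : ℝ) • oct) δ = ENNReal.ofReal ((12 + 6 * δ + δ ^ 2) * (4 / 3)) := by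
  have h1 : (2 : ℝ) • oct + δ • oct = (2 + δ) • oct :=
    (convex_oct.add_smul (by norm_num) hδ.le).symm
  have hδ' : 0 < 2 + δ := by linarith
  rw [surfQuot, h1, smul_oct hδ', smul_oct two_pos, volume_le_three, volume_le_three,
    ← ENNReal.ofReal_pow hδ'.le, ← ENNReal.ofReal_pow two_pos.le,
    ← ENNReal.ofReal_mul (by positivity), ← ENNReal.ofReal_mul (by positivity),
    ← ENNReal.ofReal_sub _ (by positivity), ← ENNReal.ofReal_div_of_pos hδ]
  congr 1
  field_simp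
  ring

lemma upperSurf_double : upperSurf oct ((2 : ℝ) • oct) = 16 := by
  have h1 : Tendsto (fun δ : ℝ => ENNReal.ofReal ((12 + 6 * δ + δ ^ 2) * (4 / 3))) (𝓝[>] 0)
      (𝓝 16) := by
    have h2 : Continuous fun δ : ℝ => ENNReal.ofReal ((12 + 6 * δ + δ ^ 2) * (4 / 3)) :=
      ENNReal.continuous_ofReal.comp (by fun_prop)
    have h3 := h2.tendsto 0
    have h4 : ENNReal.ofReal ((12 + 6 * (0 : ℝ) + 0 ^ 2) * (4 / 3)) = 16 := by
      norm_num
    rw [h4] at h3
    exact h3.mono_left nhdsWithin_le_nhds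
  have h5 : Tendsto (surfQuot oct ((2 : ℝ) • oct)) (𝓝[>] 0) (𝓝 16) := by
    refine h1.congr' ?_
    filter_upwards [self_mem_nhdsWithin] with δ hδ
    exact (surfQuot_double hδ).symm
  exact h5.limsup_eq

/-! ### The union -/

/-- The base of the first piece. -/
def BP : Set (Fin 2 → ℝ) := {w | ∑ i, |w i| < 1}

/-- The base of the second piece. -/
def BQ (δ : ℝ) : Set (Fin 2 → ℝ) :=
  BP \ ({w | ∑ i, |w i| ≤ 1 / 2 + δ / 2} ∪ (Icc ![-δ, -1] ![δ, 1] ∪ Icc ![-1, -δ] ![1, δ]))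

lemma measurableSet_BP : MeasurableSet BP := by
  unfold BP
  exact measurableSet_lt (by fun_prop) measurable_const

lemma measurableSet_BQ (δ : ℝ) : MeasurableSet (BQ δ) := by
  unfold BQ
  refine measurableSet_BP.diff ((measurableSet_le (by fun_prop) measurable_const).union
    (measurableSet_Icc.union measurableSet_Icc))

lemma volume_BQ {δ : ℝ} (h0 : 0 < δ) (h1 : δ < 1 / 60) : ENNReal.ofReal (4 / 3) ≤ volume (BQ δ) := by
  have hA : volume (Icc (![-δ, -1] : Fin 2 → ℝ) ![δ, 1]) = ENNReal.ofReal (4 * δ) := by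
    rw [Real.volume_Icc_pi, Fin.prod_univ_two, ← ENNReal.ofReal_mul (by simp; linarith)]
    congr 1
    simp
    ring
  have hB : volume (Icc (![-1, -δ] : Fin 2 → ℝ) ![1, δ]) = ENNReal.ofReal (4 * δ) := by
    rw [Real.volume_Icc_pi, Fin.prod_univ_two, ← ENNReal.ofReal_mul (by simp)]
    congr 1
    simp
    ring
  have hC : volume ({w : Fin 2 → ℝ | ∑ i, |w i| ≤ 1 / 2 + δ / 2}
      ∪ (Icc ![-δ, -1] ![δ, 1] ∪ Icc ![-1, -δ] ![1, δ]))
      ≤ ENNReal.ofReal ((1 / 2 + δ / 2) ^ 2 * 2 + (4 * δ + 4 * δ)) := by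
    refine (measure_union_le _ _).trans ?_
    rw [volume_le_two, ← ENNReal.ofReal_pow (by positivity), ← ENNReal.ofReal_mul (by positivity),
      ENNReal.ofReal_add (by positivity) (by positivity)]
    refine add_le_add le_rfl ((measure_union_le _ _).trans ?_)
    rw [hA, hB, ENNReal.ofReal_add (by positivity) (by positivity)]
  calc ENNReal.ofReal (4 / 3)
      ≤ ENNReal.ofReal (2 - ((1 / 2 + δ / 2) ^ 2 * 2 + (4 * δ + 4 * δ))) :=
        ENNReal.ofReal_le_ofReal (by nlinarith)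
    _ = ENNReal.ofReal 2 - ENNReal.ofReal ((1 / 2 + δ / 2) ^ 2 * 2 + (4 * δ + 4 * δ)) :=
        ENNReal.ofReal_sub _ (by positivity)
    _ ≤ volume BP - volume ({w : Fin 2 → ℝ | ∑ i, |w i| ≤ 1 / 2 + δ / 2}
      ∪ (Icc ![-δ, -1] ![δ, 1] ∪ Icc ![-1, -δ] ![1, δ])) := by
        refine tsub_le_tsub ?_ hC
        rw [BP, volume_lt_two]
    _ ≤ volume (BQ δ) := le_measure_sdiff

lemma mem_BQ {δ : ℝ} {w : Fin 2 → ℝ} (hw : w ∈ BQ δ) :
    |w 0| + |w 1| < 1 ∧ 1 / 2 + δ / 2 < |w 0| + |w 1| ∧ δ < |w 0| ∧ δ < |w 1| := by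
  obtain ⟨h2, h3⟩ := hw
  have h2' : |w 0| + |w 1| < 1 := by
    have : ∑ i, |w i| < 1 := h2
    rwa [Fin.sum_univ_two] at this
  simp only [mem_union, not_or] at h3
  obtain ⟨h4, h5, h6⟩ := h3
  have h4' : ¬ (∑ i, |w i| ≤ 1 / 2 + δ / 2) := h4
  rw [Fin.sum_univ_two] at h4'
  have hw0 : |w 0| ≤ 1 := by linarith [abs_nonneg (w 1)]
  have hw1 : |w 1| ≤ 1 := by linarith [abs_nonneg (w 0)]
  refine ⟨h2', not_le.1 h4', ?_, ?_⟩
  · by_contra hcon
    refine h5 ⟨?_, ?_⟩ <;> intro i <;> fin_cases i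
    · exact (abs_le.1 (not_lt.1 hcon)).1
    · exact (abs_le.1 hw1).1
    · exact (abs_le.1 (not_lt.1 hcon)).2
    · exact (abs_le.1 hw1).2
  · by_contra hcon
    refine h6 ⟨?_, ?_⟩ <;> intro i <;> fin_cases i
    · exact (abs_le.1 hw0).1
    · exact (abs_le.1 (not_lt.1 hcon)).1
    · exact (abs_le.1 hw0).2
    · exact (abs_le.1 (not_lt.1 hcon)).2

/-- The two pieces, in the coordinates `(x i, the other two coordinates)`. -/
def RP (δ : ℝ) : Set (ℝ × (Fin 2 → ℝ)) :=
  {q | q.2 ∈ BP ∧ 2 - (|q.2 0| + |q.2 1|) < |q.1| ∧ |q.1| < 2 - (|q.2 0| + |q.2 1|) + δ}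

/-- The second piece. -/
def RQ (δ : ℝ) : Set (ℝ × (Fin 2 → ℝ)) :=
  {q | q.2 ∈ BQ δ ∧ |q.2 0| + |q.2 1| - δ < |q.1| ∧ |q.1| < |q.2 0| + |q.2 1| - δ + δ}

lemma measurableSet_RP (δ : ℝ) : MeasurableSet (RP δ) := by
  have e : RP δ = (Prod.snd ⁻¹' BP) ∩
      ({q : ℝ × (Fin 2 → ℝ) | 2 - (|q.2 0| + |q.2 1|) < |q.1|} ∩
        {q : ℝ × (Fin 2 → ℝ) | |q.1| < 2 - (|q.2 0| + |q.2 1|) + δ}) := rfl
  rw [e]
  refine (measurableSet_BP.preimage measurable_snd).inter
    ((measurableSet_lt ?_ ?_).inter (measurableSet_lt ?_ ?_)) <;> fun_prop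

lemma measurableSet_RQ (δ : ℝ) : MeasurableSet (RQ δ) := by
  have e : RQ δ = (Prod.snd ⁻¹' BQ δ) ∩
      ({q : ℝ × (Fin 2 → ℝ) | |q.2 0| + |q.2 1| - δ < |q.1|} ∩
        {q : ℝ × (Fin 2 → ℝ) | |q.1| < |q.2 0| + |q.2 1| - δ + δ}) := rfl
  rw [e]
  refine ((measurableSet_BQ δ).preimage measurable_snd).inter
    ((measurableSet_lt ?_ ?_).inter (measurableSet_lt ?_ ?_)) <;> fun_prop

lemma volume_slice {a δ : ℝ} (ha : 0 ≤ a) (hδ : 0 < δ) :
    ENNReal.ofReal (2 * δ) ≤ volume {t : ℝ | a < |t| ∧ |t| < a + δ} := by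
  have h1 : Ioo a (a + δ) ∪ Ioo (-(a + δ)) (-a) ⊆ {t : ℝ | a < |t| ∧ |t| < a + δ} := by
    rintro t (ht | ht)
    · have : |t| = t := abs_of_pos (lt_of_le_of_lt ha ht.1)
      exact ⟨by rw [this]; exact ht.1, by rw [this]; exact ht.2⟩
    · have : |t| = -t := abs_of_neg (lt_of_lt_of_le ht.2 (by linarith))
      exact ⟨by rw [this]; linarith [ht.2], by rw [this]; linarith [ht.1]⟩
  have h2 : Disjoint (Ioo a (a + δ)) (Ioo (-(a + δ)) (-a)) := by
    rw [Set.disjoint_left]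
    intro t ht ht'
    linarith [ht.1, ht'.2]
  calc ENNReal.ofReal (2 * δ) = volume (Ioo a (a + δ) ∪ Ioo (-(a + δ)) (-a)) := by
        rw [measure_union h2 measurableSet_Ioo, Real.volume_Ioo, Real.volume_Ioo,
          ← ENNReal.ofReal_add (by linarith) (by linarith)]
        congr 1
        ring
    _ ≤ _ := measure_mono h1

lemma volume_ge_of_slices {S : Set (ℝ × (Fin 2 → ℝ))} (hS : MeasurableSet S)
    {B : Set (Fin 2 → ℝ)} (hB : MeasurableSet B) {c : ℝ≥0∞}
    (h : ∀ w ∈ B, c ≤ volume {t : ℝ | (t, w) ∈ S}) : c * volume B ≤ volume S := by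
  rw [Measure.volume_eq_prod, Measure.prod_apply_symm hS]
  calc c * volume B = ∫⁻ _ in B, c := by rw [setLIntegral_const]
    _ ≤ ∫⁻ w in B, volume ((fun t => (t, w)) ⁻¹' S) := setLIntegral_mono' hB h
    _ ≤ ∫⁻ w, volume ((fun t => (t, w)) ⁻¹' S) := setLIntegral_le_lintegral _ _

lemma volume_R {δ : ℝ} (h0 : 0 < δ) (h1 : δ < 1 / 60) :
    ENNReal.ofReal (20 / 3 * δ) ≤ volume (RP δ ∪ RQ δ) := by
  have hP : ENNReal.ofReal (2 * δ) * volume BP ≤ volume (RP δ) := by
    refine volume_ge_of_slices (measurableSet_RP δ) measurableSet_BP fun w hw => ?_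
    have hw' : |w 0| + |w 1| < 1 := by
      have : ∑ i, |w i| < 1 := hw
      rwa [Fin.sum_univ_two] at this
    refine (volume_slice (a := 2 - (|w 0| + |w 1|)) (by linarith) h0).trans (measure_mono ?_)
    intro t ht
    exact ⟨hw, ht.1, ht.2⟩
  have hQ : ENNReal.ofReal (2 * δ) * volume (BQ δ) ≤ volume (RQ δ) := by
    refine volume_ge_of_slices (measurableSet_RQ δ) (measurableSet_BQ δ) fun w hw => ?_
    obtain ⟨_, _, h3, _⟩ := mem_BQ hw
    refine (volume_slice (a := |w 0| + |w 1| - δ) (by linarith [abs_nonneg (w 1)]) h0).trans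
      (measure_mono ?_)
    intro t ht
    exact ⟨hw, ht.1, ht.2⟩
  have hdisj : Disjoint (RP δ) (RQ δ) := by
    rw [Set.disjoint_left]
    rintro q ⟨hq1, hq2, _⟩ ⟨_, _, hq5⟩
    have : ∑ i, |q.2 i| < 1 := hq1
    rw [Fin.sum_univ_two] at this
    linarith
  rw [measure_union hdisj (measurableSet_RQ δ)]
  calc ENNReal.ofReal (20 / 3 * δ)
      = ENNReal.ofReal (2 * δ) * ENNReal.ofReal 2
        + ENNReal.ofReal (2 * δ) * ENNReal.ofReal (4 / 3) := by
        rw [← ENNReal.ofReal_mul (by positivity), ← ENNReal.ofReal_mul (by positivity),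
          ← ENNReal.ofReal_add (by positivity) (by positivity)]
        congr 1
        ring
    _ ≤ ENNReal.ofReal (2 * δ) * volume BP + ENNReal.ofReal (2 * δ) * volume (BQ δ) := by
        refine add_le_add (le_of_eq ?_) (mul_le_mul_right (volume_BQ h0 h1) _)
        rw [BP, volume_lt_two]
    _ ≤ _ := add_le_add hP hQ

/-- What membership in a piece gives. -/
lemma facts {δ : ℝ} (h1 : δ < 1 / 60) {t : ℝ} {w : Fin 2 → ℝ}
    (h : (t, w) ∈ RP δ ∪ RQ δ) :
    |w 0| < |t| ∧ |w 1| < |t| ∧ 1 < |t| + (|w 0| + |w 1|) ∧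
      |(|t| - 1)| + (|w 0| + |w 1|) ≤ 1 + δ ∧ 1 < |(|t| - 1)| + (|w 0| + |w 1|) ∧
      |w 0| < |t| + |w 1| ∧ |w 1| < |t| + |w 0| := by
  have hw0 := abs_nonneg (w 0)
  have hw1 := abs_nonneg (w 1)
  rcases h with h | h
  · obtain ⟨hq1, hq2, hq3⟩ := h
    have hq1' : ∑ i, |w i| < 1 := hq1
    rw [Fin.sum_univ_two] at hq1'
    simp only at hq2 hq3
    have ht : |(|t| - 1)| = |t| - 1 := abs_of_nonneg (by linarith)
    rw [ht]
    refine ⟨?_, ?_, ?_, ?_, ?_, ?_, ?_⟩ <;> linarith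
  · obtain ⟨hq1, hq2, hq3⟩ := h
    obtain ⟨g1, g2, g3, g4⟩ := mem_BQ hq1
    simp only at hq2 hq3
    have ht : |(|t| - 1)| = 1 - |t| := by
      rw [abs_of_nonpos (by linarith)]
      ring
    rw [ht]
    refine ⟨?_, ?_, ?_, ?_, ?_, ?_, ?_⟩ <;> linarith

/-- The pieces in `ℝ³`. -/
def piece (δ : ℝ) (i : Fin 3) : Set (Fin 3 → ℝ) :=
  {x | (x i, fun j => x (i.succAbove j)) ∈ RP δ ∪ RQ δ}

lemma piece_eq (δ : ℝ) (i : Fin 3) :
    piece δ i = (MeasurableEquiv.piFinSuccAbove (fun _ : Fin 3 => ℝ) i) ⁻¹' (RP δ ∪ RQ δ) := rfl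

lemma measurableSet_piece (δ : ℝ) (i : Fin 3) : MeasurableSet (piece δ i) := by
  rw [piece_eq]
  exact (MeasurableEquiv.measurable _) ((measurableSet_RP δ).union (measurableSet_RQ δ))

lemma volume_piece {δ : ℝ} (h0 : 0 < δ) (h1 : δ < 1 / 60) (i : Fin 3) :
    ENNReal.ofReal (20 / 3 * δ) ≤ volume (piece δ i) := by
  rw [piece_eq, (volume_preserving_piFinSuccAbove (fun _ : Fin 3 => ℝ) i).measure_preimage_equiv]
  exact volume_R h0 h1

lemma piece_dominant {δ : ℝ} (h0 : 0 < δ) (h1 : δ < 1 / 60) {i j : Fin 3} (hij : j ≠ i)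
    {x : Fin 3 → ℝ} (hx : x ∈ piece δ i) : |x j| < |x i| := by
  obtain ⟨f1, f2, _⟩ := facts h1 hx
  obtain ⟨k, rfl⟩ := Fin.exists_succAbove_eq hij
  fin_cases k
  · exact f1
  · exact f2

lemma piece_disjoint {δ : ℝ} (h0 : 0 < δ) (h1 : δ < 1 / 60) :
    Pairwise (Function.onFun Disjoint (piece δ)) := by
  intro i j hij
  rw [Function.onFun, Set.disjoint_left]
  intro x hx hx'
  have e1 := piece_dominant h0 h1 hij.symm hx
  have e2 := piece_dominant h0 h1 hij hx'
  linarith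

lemma dist_eq (i : Fin 3) (x a : Fin 3 → ℝ) : ∑ k, |x k - a k|
    = |x i - a i| + (|x (i.succAbove 0) - a (i.succAbove 0)|
      + |x (i.succAbove 1) - a (i.succAbove 1)|) := by
  rw [Fin.sum_univ_succAbove _ i, Fin.sum_univ_two]

/-- Membership in the parallel set. -/
lemma mem_parallel {δ : ℝ} (h0 : 0 < δ) {x a : Fin 3 → ℝ} (ha : a ∈ ctr)
    (hx : ∑ k, |x k - a k| ≤ 1 + δ) : x ∈ (ctr + oct) + δ • oct := by
  rw [add_assoc]
  have h1 : oct + δ • oct = (1 + δ) • oct := by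
    have := (convex_oct.add_smul (zero_le_one) h0.le).symm
    rwa [one_smul] at this
  rw [h1, smul_oct (by linarith)]
  exact ⟨a, ha, x - a, hx, by simp⟩

lemma piece_subset {δ : ℝ} (h0 : 0 < δ) (h1 : δ < 1 / 60) (i : Fin 3) :
    piece δ i ⊆ ((ctr + oct) + δ • oct) \ (ctr + oct) := by
  intro x hx
  obtain ⟨f1, f2, f3, f4, f5, f6, f7⟩ := facts h1 hx
  have hne0 : i.succAbove 0 ≠ i := Fin.succAbove_ne i 0
  have hne1 : i.succAbove 1 ≠ i := Fin.succAbove_ne i 1
  have hne01 : i.succAbove 0 ≠ i.succAbove 1 := by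
    intro h
    have := Fin.succAbove_right_injective h
    exact absurd this (by decide)
  have hpos : ∀ s : ℝ, |(|s| - 1)| ≤ |s - 1| := by
    intro s
    have := abs_abs_sub_abs_le s 1
    rwa [abs_one] at this
  have hneg : ∀ s : ℝ, |(|s| - 1)| ≤ |s + 1| := by
    intro s
    have := abs_abs_sub_abs_le s (-1)
    rwa [abs_neg, abs_one, sub_neg_eq_add] at this
  have hsub : ∀ s : ℝ, 1 - |s| ≤ |(|s| - 1)| := by
    intro s
    rw [abs_sub_comm]
    exact le_abs_self _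
  constructor
  · rcases le_total 0 (x i) with hxi | hxi
    · refine mem_parallel h0 (a := Pi.single i 1) (Or.inr ⟨i, Or.inl rfl⟩) ?_
      rw [dist_eq i, Pi.single_eq_same, Pi.single_eq_of_ne hne0, Pi.single_eq_of_ne hne1,
        sub_zero, sub_zero]
      rw [abs_of_nonneg hxi] at f4
      exact f4
    · refine mem_parallel h0 (a := Pi.single i (-1)) (Or.inr ⟨i, Or.inr rfl⟩) ?_
      rw [dist_eq i, Pi.single_eq_same, Pi.single_eq_of_ne hne0, Pi.single_eq_of_ne hne1,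
        sub_zero, sub_zero]
      rw [abs_of_nonpos hxi] at f4
      have : |x i - -1| = |(-x i - 1)| := by
        rw [abs_sub_comm]
        congr 1
        ring
      rw [this]
      exact f4
  · rintro ⟨a, ha, b, hb, hab⟩
    have hb' : ∑ k, |x k - a k| ≤ 1 := by
      have e : ∀ k, x k - a k = b k := by
        intro k
        rw [← hab]
        simp
      simp only [e]
      exact hb
    clear hab hb
    rcases ha with rfl | ⟨j, hj⟩
    · rw [dist_eq i] at hb'
      simp only [Pi.zero_apply, sub_zero] at hb'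
      linarith
    · rcases eq_or_ne j i with rfl | hji
      · rcases hj with rfl | rfl
        · rw [dist_eq j, Pi.single_eq_same, Pi.single_eq_of_ne hne0, Pi.single_eq_of_ne hne1,
            sub_zero, sub_zero] at hb'
          linarith [hpos (x j)]
        · rw [dist_eq j, Pi.single_eq_same, Pi.single_eq_of_ne hne0, Pi.single_eq_of_ne hne1,
            sub_zero, sub_zero, sub_neg_eq_add] at hb'
          linarith [hneg (x j)]
      · obtain ⟨k, rfl⟩ := Fin.exists_succAbove_eq hji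
        fin_cases k
        · simp only [Fin.zero_eta] at *
          rcases hj with rfl | rfl
          · rw [dist_eq i, Pi.single_eq_of_ne hne0.symm, Pi.single_eq_same,
              Pi.single_eq_of_ne hne01.symm, sub_zero, sub_zero] at hb'
            linarith [hpos (x (i.succAbove 0)), hsub (x (i.succAbove 0))]
          · rw [dist_eq i, Pi.single_eq_of_ne hne0.symm, Pi.single_eq_same,
              Pi.single_eq_of_ne hne01.symm, sub_zero, sub_zero, sub_neg_eq_add] at hb'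
            linarith [hneg (x (i.succAbove 0)), hsub (x (i.succAbove 0))]
        · simp only [Fin.mk_one] at *
          rcases hj with rfl | rfl
          · rw [dist_eq i, Pi.single_eq_of_ne hne1.symm, Pi.single_eq_same,
              Pi.single_eq_of_ne hne01, sub_zero, sub_zero] at hb'
            linarith [hpos (x (i.succAbove 1)), hsub (x (i.succAbove 1))]
          · rw [dist_eq i, Pi.single_eq_of_ne hne1.symm, Pi.single_eq_same,
              Pi.single_eq_of_ne hne01, sub_zero, sub_zero, sub_neg_eq_add] at hb'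
            linarith [hneg (x (i.succAbove 1)), hsub (x (i.succAbove 1))]

lemma isCompact_oct : IsCompact oct := by
  refine Metric.isCompact_of_isClosed_isBounded ?_ bounded_oct
  exact isClosed_le (by fun_prop) continuous_const

lemma isCompact_union : IsCompact (ctr + oct) := ctr_finite.isCompact.add isCompact_oct

lemma surfQuot_union {δ : ℝ} (h0 : 0 < δ) (h1 : δ < 1 / 60) :
    20 ≤ surfQuot oct (ctr + oct) δ := by
  have hsub : ctr + oct ⊆ (ctr + oct) + δ • oct := by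
    intro x hx
    refine ⟨x, hx, 0, ?_, add_zero x⟩
    exact ⟨0, by simp [oct], by simp⟩
  have hdiff : volume (((ctr + oct) + δ • oct) \ (ctr + oct))
      = volume ((ctr + oct) + δ • oct) - volume (ctr + oct) :=
    measure_sdiff hsub isCompact_union.measurableSet.nullMeasurableSet
      isCompact_union.measure_lt_top.ne
  have hge : ENNReal.ofReal (20 * δ)
      ≤ volume (((ctr + oct) + δ • oct) \ (ctr + oct)) := by
    calc ENNReal.ofReal (20 * δ) = ∑ _i : Fin 3, ENNReal.ofReal (20 / 3 * δ) := by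
          rw [← ENNReal.ofReal_sum_of_nonneg (fun _ _ => by positivity)]
          congr 1
          simp
          ring
      _ ≤ ∑ i : Fin 3, volume (piece δ i) :=
          Finset.sum_le_sum fun i _ => volume_piece h0 h1 i
      _ = volume (⋃ i, piece δ i) := by
          rw [measure_iUnion (piece_disjoint h0 h1) (measurableSet_piece δ), tsum_fintype]
      _ ≤ _ := measure_mono (iUnion_subset fun i => piece_subset h0 h1 i)
  rw [surfQuot, ← hdiff]
  rw [ENNReal.le_div_iff_mul_le (Or.inl (by simpa using h0)) (Or.inl ENNReal.ofReal_ne_top)]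
  refine le_trans (le_of_eq ?_) hge
  rw [ENNReal.ofReal_mul (by norm_num)]
  congr 1
  norm_num

lemma lowerSurf_union : 20 ≤ lowerSurf oct (ctr + oct) := by
  refine le_liminf_of_le ?_ ?_
  · isBoundedDefault
  · have : Ioo (0 : ℝ) (1 / 60) ∈ 𝓝[>] (0 : ℝ) := Ioo_mem_nhdsGT (by norm_num)
    filter_upwards [this] with δ hδ
    exact surfQuot_union hδ.1 hδ.2

/-- **The surface area of a finite union of translates `x_i + rK`, `x_i ∈ K(x₀; r)`, can exceed that
of `K(x₀; 2r)`**: here `d = 3`, `r = 1`, `x₀ = 0`. -/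
theorem result : ∃ K : Set (Fin 3 → ℝ), Convex ℝ K ∧ Bornology.IsBounded K ∧ (∀ x ∈ K, -x ∈ K) ∧
    ∃ A : Set (Fin 3 → ℝ), A.Finite ∧ 0 ∈ A ∧ A ⊆ K ∧
      upperSurf K ((2 : ℝ) • K) = 16 ∧ 20 ≤ lowerSurf K (A + K) ∧
      upperSurf K ((2 : ℝ) • K) < lowerSurf K (A + K) := by
  refine ⟨oct, convex_oct, bounded_oct, fun x hx => oct_neg hx, ctr, ctr_finite, zero_mem_ctr,
    ctr_subset, upperSurf_double, lowerSurf_union, ?_⟩
  rw [upperSurf_double]
  exact lt_of_lt_of_le (by norm_num) lowerSurf_union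

end Pool.Agent.Results.MP_a80f1a_gt.UnionSurfaceFails
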